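import Pool.Agent.Y744.NB.Stm

/-!
# Job NB-STAT: assembly of the static data
-/

set_option autoImplicit false

open MeasureTheory Set Filter Topology Metric
open scoped ContDiff

namespace Pool.Agent.Y291.NB.Stat

open Pool.Agent.Y744.NB

lemma tail_small {g : ℝ → ℝ} {a : ℝ} (hg : IntegrableOn g (Ioi a)) {ε : ℝ} (hε : 0 < ε) :
    ∃ A : ℝ, ∀ b, A ≤ b → ∫ x in Ioi b, g x < ε := by
  have h1 : Tendsto (fun b => ∫ x in a..b, g x) atTop (𝓝 (∫ x in Ioi a, g x)) :=
    intervalIntegral_tendsto_integral_Ioi a hg tendsto_id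
  have h2 : Tendsto (fun b => (∫ x in Ioi a, g x) - ∫ x in a..b, g x) atTop (𝓝 0) := by
    have := h1.const_sub (∫ x in Ioi a, g x)
    rwa [sub_self] at this
  have h3 := (h2.eventually (gt_mem_nhds hε)).and (eventually_ge_atTop a)
  obtain ⟨A, hA⟩ := eventually_atTop.1 h3
  refine ⟨A, fun b hb => ?_⟩
  obtain ⟨h4, h5⟩ := hA b hb
  have h6 := intervalIntegral.integral_interval_add_Ioi hg (hg.mono_set (Ioi_subset_Ioi h5))
  linarith

lemma large_param {f : ℝ → ℝ} {a k : ℝ} (hk : 0 ≤ k) (hpos : ∀ r, a ≤ r → 0 < f r)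
    (hlim : Tendsto (fun r => r / f r) atTop (𝓝 0)) :
    ∃ a' : ℝ, a ≤ a' ∧ 1 ≤ a' ∧ ∀ r, a' ≤ r → 8 * k * r ≤ f r := by
  have hk1 : 0 < 1 / (8 * (k + 1)) := by positivity
  have h1 := ((hlim.eventually (gt_mem_nhds hk1)).and (eventually_ge_atTop a)).and
    (eventually_ge_atTop (1:ℝ))
  obtain ⟨b, hb⟩ := eventually_atTop.1 h1
  refine ⟨max b (max a 1), (le_max_left _ _).trans (le_max_right _ _),
    (le_max_right _ _).trans (le_max_right _ _), fun r hr => ?_⟩
  obtain ⟨⟨h2, h3⟩, h4⟩ := hb r ((le_max_left _ _).trans hr)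
  have h5 := hpos r h3
  rw [div_lt_div_iff₀ h5 (by positivity)] at h2
  nlinarith

theorem t (hMASS : S_MASS) (hPT : S_PT) (hODE1 : S_ODE1) (hODE2 : S_ODE2) (hFUB : S_FUB) :
    S_STAT := by
  intro N K f a T hK hf hf0 hpos hint hlim hT
  obtain ⟨B, τm, hB, hτm, hM⟩ := hMASS N K hK
  set k : ℝ := ∫ y, K y with hk
  have hk0 : 0 ≤ k := integral_nonneg hK.nonneg
  obtain ⟨C, hC⟩ := isCompact_Icc.exists_bound_of_continuousOn (s := Icc (0:ℝ) 1) hf.continuousOn
  set F : ℝ := |C| + 1 with hF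
  have hF0 : 0 < F := by positivity
  have hfF : ∀ r ∈ Icc (0:ℝ) 1, f r ≤ F := by
    intro r hr
    have h1 := hC r hr
    rw [Real.norm_eq_abs] at h1
    have h2 := le_abs_self (f r)
    have h3 := le_abs_self C
    linarith
  refine ⟨F, hF0, ?_⟩
  set D : ℝ := F + B with hD
  have hD0 : 0 < D := by positivity
  refine ⟨min (min T τm) (min (1 / (2 * D)) (1 / (2 * (k + 1)))), by positivity,
    (min_le_left _ _).trans (min_le_left _ _), ?_⟩
  intro τ hτ hτle
  have hτT : τ ≤ T := hτle.trans ((min_le_left _ _).trans (min_le_left _ _))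
  have hττm : τ ≤ τm := hτle.trans ((min_le_left _ _).trans (min_le_right _ _))
  have hτD : τ * D < 1 := by
    have h1 : τ ≤ 1 / (2 * D) := hτle.trans ((min_le_right _ _).trans (min_le_left _ _))
    rw [le_div_iff₀ (by positivity)] at h1
    linarith
  have hτk : 2 * k * τ ≤ 1 := by
    have h1 : τ ≤ 1 / (2 * (k + 1)) := hτle.trans ((min_le_right _ _).trans (min_le_right _ _))
    rw [le_div_iff₀ (by positivity)] at h1
    nlinarith
  obtain ⟨a', haa', ha'1, ha'⟩ := large_param hk0 hpos hlim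
  obtain ⟨A0, hA0⟩ := tail_small hint (show 0 < τ / 8 by positivity)
  set A : ℝ := max A0 (2 * a' + 1) with hAd
  have hAa : 2 * a' < A := by
    have : 2 * a' + 1 ≤ A := le_max_right _ _
    linarith
  have hA : 0 < A := by linarith
  have hAt : 8 * (∫ r in Ioi A, 1 / f r) ≤ τ := by
    have := hA0 A (le_max_left _ _)
    linarith
  refine ⟨A, hA, ?_⟩
  intro S hS hvol M u v hsol
  have hmu0 : Measurable (S.indicator fun _ : E N => A) := measurable_const.indicator hS
  have hu00 : ∀ x, 0 ≤ S.indicator (fun _ : E N => A) x := fun x =>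
    indicator_nonneg (fun _ _ => hA.le) x
  have hvolT : volume S ≠ ⊤ := ne_top_of_le_ne_top ENNReal.ofReal_ne_top hvol
  have hiu0 : Integrable (S.indicator fun _ : E N => A) :=
    (integrable_indicator_iff hS).2 (integrableOn_const hvolT)
  have hiu1 : ∫ x, S.indicator (fun _ : E N => A) x ≤ 1 := by
    rw [integral_indicator hS, setIntegral_const, smul_eq_mul]
    have h1 : volume.real S ≤ 1 / A := by
      rw [measureReal_def]
      exact ENNReal.toReal_le_of_le_ofReal (by positivity) hvol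
    calc volume.real S * A ≤ (1 / A) * A := by gcongr
      _ = 1 := by field_simp
  have hmass := hM f (S.indicator fun _ => A) T M u v hf hf0 hmu0 hu00 hiu0 hiu1 hsol
  obtain ⟨M', Z, H, d, mZ, mH, md, eZ, eH, Zm, Hm, dm, eq, bd⟩ :=
    hFUB N K f (S.indicator fun _ => A) T M τ u v hf hf0 hsol hτ hτT
  have hpt := hPT N K f (S.indicator fun _ => A) T M u v hK hf hmu0 hT hsol
  refine ⟨M', Z, H, d, mZ, mH, md, Zm, Hm, dm, eq, bd, ?_, ?_⟩
  · -- the bulk
    filter_upwards [hpt] with x hx hxS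
    obtain ⟨w, g, hgi, hw, hae⟩ := hx
    have hu0 : S.indicator (fun _ : E N => A) x = 0 := indicator_of_notMem hxS _
    have h1 : ∀ t ∈ Icc 0 τ, w t ≤ 1 := by
      refine hODE1 T τ D w g hτ hτT hD0 hτD hgi (fun t ht => ?_) ?_
      · rw [hw t ht, hu0, zero_add]
      · filter_upwards [hae] with s hs hsT hsτ hws
        obtain ⟨h2, h3⟩ := hs hsT
        rw [h3]
        have h4 := hsol.u_nonneg s hsT x
        have h5 : u s x ≤ 1 := by rw [← h2]; exact hws
        have h6 := hfF (u s x) ⟨h4, h5⟩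
        have h7 := hsol.v_mem s hsT x
        have h8 := hmass s hsT (hsτ.trans hττm) x
        have h9 : v s x * f (u s x) ≤ 1 * F := mul_le_mul h7.2 h6 (hf0 _) zero_le_one
        unfold nonlocalOp
        have h10 : 0 ≤ (∫ y, K y) * u s x := mul_nonneg hk0 h4
        rw [hD]
        linarith
    have h2 : ‖∫ s in (0:ℝ)..τ, v s x * f (u s x)‖ ≤ F * |τ - 0| := by
      refine intervalIntegral.norm_integral_le_of_norm_le_const_ae ?_
      filter_upwards [hae] with s hs hsI
      rw [uIoc_of_le hτ.le] at hsI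
      have hsT : s ∈ Icc 0 T := ⟨hsI.1.le, hsI.2.trans hτT⟩
      obtain ⟨h3, _⟩ := hs hsT
      have h4 := hsol.u_nonneg s hsT x
      have h5 : u s x ≤ 1 := by rw [← h3]; exact h1 s ⟨hsI.1.le, hsI.2⟩
      have h6 := hfF (u s x) ⟨h4, h5⟩
      have h7 := hsol.v_mem s hsT x
      have h9 : v s x * f (u s x) ≤ 1 * F := mul_le_mul h7.2 h6 (hf0 _) zero_le_one
      rw [Real.norm_eq_abs, abs_of_nonneg (mul_nonneg h7.1 (hf0 _))]
      linarith
    rw [eH x]
    rw [sub_zero, abs_of_pos hτ] at h2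
    have h3 := le_abs_self (∫ s in (0:ℝ)..τ, v s x * f (u s x))
    rw [Real.norm_eq_abs] at h2
    linarith
  · -- the balls
    filter_upwards [hpt] with x hx hxS
    obtain ⟨w, g, hgi, hw, hae⟩ := hx
    have hu0 : S.indicator (fun _ : E N => A) x = A := indicator_of_mem hxS _
    have hmv : Measurable fun s => v s x :=
      hsol.measurable_v.comp (measurable_id.prodMk measurable_const)
    have h1 : ∫ s in (0:ℝ)..τ, v s x ≤ τ / 4 := by
      refine hODE2 f a' k τ T A w g (fun s => v s x) hf (by linarith) hf0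
        (fun r hr => hpos r (haa'.trans hr)) (hint.mono_set (Ioi_subset_Ioi haa')) hk0 ha' hτ hτT
        hτk hAa hAt hgi (fun t ht => ?_) hmv (fun s hs => hsol.v_mem s hs x) ?_
      · rw [hw t ht, hu0]
      · filter_upwards [hae] with s hs hsT
        obtain ⟨h2, h3⟩ := hs hsT
        rw [h2, h3]
        refine ⟨hsol.u_nonneg s hsT x, ?_⟩
        unfold nonlocalOp
        have h4 : 0 ≤ ∫ y, K y * u s (x - y) :=
          integral_nonneg fun y => mul_nonneg (hK.nonneg y) (hsol.u_nonneg s hsT _)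
        linarith
    have hvi : IntervalIntegrable (fun s => v s x) volume 0 τ := by
      rw [intervalIntegrable_iff_integrableOn_Ioc_of_le hτ.le]
      refine Measure.integrableOn_of_bounded (M := 1) measure_Ioc_lt_top.ne
        hmv.aestronglyMeasurable ?_
      rw [ae_restrict_iff' measurableSet_Ioc]
      refine ae_of_all _ fun s hs => ?_
      have h7 := hsol.v_mem s ⟨hs.1.le, hs.2.trans hτT⟩ x
      rw [Real.norm_eq_abs, abs_of_nonneg h7.1]
      exact h7.2
    rw [eZ x, intervalIntegral.integral_sub (intervalIntegrable_const) hvi,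
      intervalIntegral.integral_const, smul_eq_mul, mul_one, sub_zero]
    linarith

end Pool.Agent.Y291.NB.Stat
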